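import Mathlib

/-!
Circuit walks in systems of difference constraints `w (dst e) - w (src e) ≤ c e`, `c ≥ 0`:
every vertex-like point `w` is reached from `0` by at most `#{e | 0 < c e}` maximal cut steps.
-/

set_option autoImplicit false

namespace Pool.Agent.Helper37.CircuitNet

open Relation

/-- A crossing step exists on a path from outside a set into the set. -/
theorem exists_cross {V : Type*} {r : V → V → Prop} {P : V → Prop} {a b : V}
    (h : ReflTransGen r a b) (ha : ¬ P a) (hb : P b) : ∃ x y, r x y ∧ ¬ P x ∧ P y := by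
  induction h with
  | refl => exact absurd hb ha
  | @tail x y hx hxy ih =>
    by_cases hPx : P x
    · exact ih hPx
    · exact ⟨x, y, hxy, hPx, hb⟩

/-- Paths of a symmetric relation can be reversed. -/
theorem rtg_symm {V : Type*} {r : V → V → Prop} (hr : ∀ x y, r x y → r y x) {a b : V}
    (h : ReflTransGen r a b) : ReflTransGen r b a := by
  induction h with
  | refl => exact ReflTransGen.refl
  | tail _ hxy ih => exact ReflTransGen.head (hr _ _ hxy) ih

/-- Paths of a smaller relation are paths. -/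
theorem rtg_mono {V : Type*} {r q : V → V → Prop} (h : ∀ x y, r x y → q x y) {a b : V}
    (hab : ReflTransGen r a b) : ReflTransGen q a b := by
  induction hab with
  | refl => exact ReflTransGen.refl
  | tail _ hxy ih => exact ih.tail (h _ _ hxy)

section

variable {V E : Type*} (src dst : E → V) (c : E → ℝ) (s : V)

/-- The point `w` satisfies all constraints. -/
def Feas (w : V → ℝ) : Prop := ∀ e, w (dst e) - w (src e) ≤ c e

/-- Adjacency in the graph of all arcs. -/
def Adj (x y : V) : Prop := ∃ e, (src e = x ∧ dst e = y) ∨ (src e = y ∧ dst e = x)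

/-- `x` and `y` are joined by an arc which is tight at `w` or has difference zero. -/
def QE (w : V → ℝ) (x y : V) : Prop :=
  (Adj src dst x y ∧ w x = w y) ∨
    ∃ e, w (dst e) - w (src e) = c e ∧ ((src e = x ∧ dst e = y) ∨ (src e = y ∧ dst e = x))

/-- The frozen nodes. -/
inductive Reach (w : V → ℝ) : V → Prop
  | base : Reach w s
  | eq {a b : V} : Reach w a → Adj src dst a b → w a = w b → Reach w b
  | down (e : E) : Reach w (dst e) → w (dst e) - w (src e) = c e → Reach w (src e)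

/-- Any two elements of `S` are joined inside `S`. -/
def ConnOn (S : Set V) : Prop :=
  ∀ a ∈ S, ∀ b ∈ S, ReflTransGen (fun x y => Adj src dst x y ∧ x ∈ S ∧ y ∈ S) a b

/-- `w` arises from `w'` by a maximal cut step: the nodes of `K` are raised or lowered, both sides
of the cut are connected, and an arc `e` with `c e > 0` blocks any longer step. -/
def Step (w' w : V → ℝ) : Prop :=
  ∃ K : Set V, s ∉ K ∧ K.Nonempty ∧ ConnOn src dst K ∧ ConnOn src dst Kᶜ ∧ ∃ l : ℝ, 0 < l ∧
    (∀ v, v ∉ K → w v = w' v) ∧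
    (((∀ v ∈ K, w v = w' v + l) ∧
        ∃ e, 0 < c e ∧ src e ∉ K ∧ dst e ∈ K ∧ w (dst e) - w (src e) = c e) ∨
      ((∀ v ∈ K, w v = w' v - l) ∧
        ∃ e, 0 < c e ∧ src e ∈ K ∧ dst e ∉ K ∧ w (dst e) - w (src e) = c e))

/-- Walks of feasible maximal cut steps starting at `0`. -/
inductive Walk : ℕ → (V → ℝ) → Prop
  | zero : Walk 0 (fun _ => 0)
  | succ {n : ℕ} {w' w : V → ℝ} : Walk n w' → Feas src dst c w' → Feas src dst c w →
      w' s = 0 → w s = 0 → Step src dst c s w' w → Walk (n + 1) w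

variable {src dst c s}

theorem Adj.symm {x y : V} (h : Adj src dst x y) : Adj src dst y x := by
  obtain ⟨e, h⟩ := h
  exact ⟨e, h.symm⟩

theorem QE.symm {w : V → ℝ} {x y : V} (h : QE src dst c w x y) : QE src dst c w y x := by
  rcases h with ⟨h, hw⟩ | ⟨e, he, h⟩
  · exact Or.inl ⟨h.symm, hw.symm⟩
  · exact Or.inr ⟨e, he, h.symm⟩

theorem QE.adj {w : V → ℝ} {x y : V} (h : QE src dst c w x y) : Adj src dst x y := by
  rcases h with ⟨h, _⟩ | ⟨e, _, h⟩
  · exact h
  · exact ⟨e, h⟩

/-- It suffices to join every element to a fixed one. -/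
theorem connOn_of_center {S : Set V} {z : V}
    (h : ∀ a ∈ S, ReflTransGen (fun x y => Adj src dst x y ∧ x ∈ S ∧ y ∈ S) z a) :
    ConnOn src dst S := by
  intro a ha b hb
  exact (rtg_symm (fun x y hxy => ⟨hxy.1.symm, hxy.2.2, hxy.2.1⟩) (h a ha)).trans (h b hb)

/-- A minimum of a nonempty finite family of positive reals. -/
theorem exists_min_pos {T : Set ℝ} (hT : T.Finite) (hne : T.Nonempty) (hpos : ∀ t ∈ T, 0 < t) :
    ∃ l ∈ T, 0 < l ∧ ∀ t ∈ T, l ≤ t := by
  obtain ⟨l, hl, hmin⟩ := Set.exists_min_image T id hT hne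
  exact ⟨l, hl, hpos l hl, fun t ht => hmin t ht⟩

end

section

variable {V E : Type*} [Finite V] [Fintype E] {src dst : E → V} {c : E → ℝ} {s : V}

open Classical in
/-- The number of arcs with positive bound which are not dead. -/
noncomputable def Phi (src dst : E → V) (c : E → ℝ) (s : V) (w : V → ℝ) : ℕ :=
  (Finset.univ.filter fun e : E => 0 < c e ∧
    ¬ (Reach src dst c s w (src e) ∧ w (dst e) - w (src e) < c e)).card

/-- The backward step when not all nodes are frozen. -/
theorem pred_one (hc : ∀ e, 0 ≤ c e) {w : V → ℝ} (hf : Feas src dst c w) (hs : w s = 0)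
    (hconn : ∀ a, ReflTransGen (QE src dst c w) s a) {b0 : V} (hb0 : ¬ Reach src dst c s w b0) :
    ∃ w' : V → ℝ, Feas src dst c w' ∧ w' s = 0 ∧ (∀ a, ReflTransGen (QE src dst c w') s a) ∧
      Step src dst c s w' w ∧ Phi src dst c s w' < Phi src dst c s w := by
  classical
  set R : V → Prop := Reach src dst c s w with hR
  set K : Set V := {b | ReflTransGen (fun x y => QE src dst c w x y ∧ ¬ R y) b0 b} with hK
  have hKR : ∀ b ∈ K, ¬ R b := by
    intro b hb
    have hb' : ReflTransGen (fun x y => QE src dst c w x y ∧ ¬ R y) b0 b := hb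
    induction hb' with
    | refl => exact hb0
    | tail _ h _ => exact h.2
  have hKcl : ∀ x y, x ∈ K → QE src dst c w x y → ¬ R y → y ∈ K :=
    fun x y hx hxy hy => ReflTransGen.tail hx ⟨hxy, hy⟩
  have hb0K : b0 ∈ K := ReflTransGen.refl
  have hsR : R s := Reach.base
  have hsK : s ∉ K := fun h => hKR s h hsR
  -- no tight arc leaves K
  have f3 : ∀ e, src e ∈ K → dst e ∉ K → w (dst e) - w (src e) < c e := by
    intro e h1 h2
    refine lt_of_le_of_ne (hf e) fun h => ?_
    by_cases hr : R (dst e)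
    · exact hKR _ h1 (Reach.down e hr h)
    · exact h2 (hKcl _ _ h1 (Or.inr ⟨e, h, Or.inl ⟨rfl, rfl⟩⟩) hr)
  -- no arc with difference zero leaves K
  have f4 : ∀ x y, Adj src dst x y → x ∈ K → y ∉ K → w x ≠ w y := by
    intro x y hxy hx hy h
    by_cases hr : R y
    · exact hKR _ hx (Reach.eq hr hxy.symm h.symm)
    · exact hy (hKcl _ _ hx (Or.inl ⟨hxy, h⟩) hr)
  -- an exit arc
  have f5 : ∃ e, 0 < c e ∧ src e ∉ K ∧ dst e ∈ K ∧ w (dst e) - w (src e) = c e ∧ R (src e) := by
    obtain ⟨x, y, hxy, hx, hy⟩ := exists_cross (P := fun v => v ∈ K) (hconn b0) hsK hb0K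
    rcases hxy with ⟨hadj, hw⟩ | ⟨e, he, h | h⟩
    · exact absurd hw.symm (f4 y x hadj.symm hy hx)
    · obtain ⟨rfl, rfl⟩ := h
      have hne := f4 (dst e) (src e) ⟨e, Or.inr ⟨rfl, rfl⟩⟩ hy hx
      have hce : 0 < c e := by
        refine lt_of_le_of_ne (hc e) fun h0 => hne ?_
        linarith
      refine ⟨e, hce, hx, hy, he, ?_⟩
      by_contra hr
      exact hx (hKcl _ _ hy (Or.inr ⟨e, he, Or.inr ⟨rfl, rfl⟩⟩) hr)
    · obtain ⟨rfl, rfl⟩ := h
      exact absurd he (ne_of_lt (f3 e hy hx))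
  -- K is connected
  have f6 : ∀ a ∈ K, ReflTransGen (fun x y => QE src dst c w x y ∧ x ∈ K ∧ y ∈ K) b0 a := by
    intro a ha
    have ha' : ReflTransGen (fun x y => QE src dst c w x y ∧ ¬ R y) b0 a := ha
    induction ha' with
    | refl => exact ReflTransGen.refl
    | @tail x y hx hxy ih => exact (ih hx).tail ⟨hxy.1, hx, ha⟩
  -- the complement is connected
  have f7a : ∀ a, R a → ReflTransGen (fun x y => QE src dst c w x y ∧ x ∉ K ∧ y ∉ K) s a := by
    intro a ha
    induction ha with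
    | base => exact ReflTransGen.refl
    | @eq a b h1 h2 h3 ih =>
      exact ih.tail ⟨Or.inl ⟨h2, h3⟩, fun h => hKR _ h h1, fun h => hKR _ h (Reach.eq h1 h2 h3)⟩
    | down e h1 h2 ih =>
      exact ih.tail ⟨Or.inr ⟨e, h2, Or.inr ⟨rfl, rfl⟩⟩, fun h => hKR _ h h1,
        fun h => hKR _ h (Reach.down e h1 h2)⟩
  have f7b : ∀ a, ∃ r0, R r0 ∧ ReflTransGen (fun x y => QE src dst c w x y ∧ ¬ R y) r0 a := by
    intro a
    induction hconn a with
    | refl => exact ⟨s, hsR, ReflTransGen.refl⟩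
    | @tail x y _ hxy ih =>
      by_cases hy : R y
      · exact ⟨y, hy, ReflTransGen.refl⟩
      · obtain ⟨r0, h0, h1⟩ := ih
        exact ⟨r0, h0, h1.tail ⟨hxy, hy⟩⟩
  have f7 : ∀ a, a ∉ K → ReflTransGen (fun x y => QE src dst c w x y ∧ x ∉ K ∧ y ∉ K) s a := by
    intro a ha
    obtain ⟨r0, h0, h1⟩ := f7b a
    refine (f7a r0 h0).trans ?_
    clear h0
    induction h1 with
    | refl => exact ReflTransGen.refl
    | @tail x y _ hxy ih =>
      have hx : x ∉ K := fun h => ha (hKcl _ _ h hxy.1 hxy.2)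
      exact (ih hx).tail ⟨hxy.1, hx, ha⟩
  -- the step length
  set T : Set ℝ := {t | (∃ e, src e ∈ K ∧ dst e ∉ K ∧ t = c e - (w (dst e) - w (src e))) ∨
    (∃ x y, Adj src dst x y ∧ x ∉ K ∧ y ∈ K ∧ w x < w y ∧ t = w y - w x)} with hT
  have hTfin : T.Finite := by
    refine Set.Finite.subset ((Set.finite_range fun e => c e - (w (dst e) - w (src e))).union
      (Set.finite_range fun p : V × V => w p.2 - w p.1)) ?_
    rintro t (⟨e, _, _, rfl⟩ | ⟨x, y, _, _, _, _, rfl⟩)
    · exact Or.inl ⟨e, rfl⟩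
    · exact Or.inr ⟨(x, y), rfl⟩
  obtain ⟨e0, he0c, he0s, he0d, he0t, he0R⟩ := f5
  have hTne : T.Nonempty :=
    ⟨w (dst e0) - w (src e0), Or.inr ⟨src e0, dst e0, ⟨e0, Or.inl ⟨rfl, rfl⟩⟩, he0s, he0d,
      by linarith, rfl⟩⟩
  have hTpos : ∀ t ∈ T, 0 < t := by
    rintro t (⟨e, h1, h2, rfl⟩ | ⟨x, y, _, _, _, h, rfl⟩)
    · have := f3 e h1 h2
      linarith
    · linarith
  obtain ⟨l, hlT, hl0, hlmin⟩ := exists_min_pos hTfin hTne hTpos
  set w' : V → ℝ := fun v => if v ∈ K then w v - l else w v with hw'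
  have w'in : ∀ v ∈ K, w' v = w v - l := fun v hv => by simp [hw', hv]
  have w'out : ∀ v, v ∉ K → w' v = w v := fun v hv => by simp [hw', hv]
  have hf' : Feas src dst c w' := by
    intro e
    by_cases h1 : src e ∈ K <;> by_cases h2 : dst e ∈ K
    · rw [w'in _ h1, w'in _ h2]; have := hf e; linarith
    · rw [w'in _ h1, w'out _ h2]
      have := hlmin _ (Or.inl ⟨e, h1, h2, rfl⟩)
      linarith
    · rw [w'out _ h1, w'in _ h2]; have := hf e; linarith
    · rw [w'out _ h1, w'out _ h2]; exact hf e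
  have qeout : ∀ x y, QE src dst c w x y ∧ x ∉ K ∧ y ∉ K → QE src dst c w' x y := by
    rintro x y ⟨⟨h, hw⟩ | ⟨e, he, h⟩, hx, hy⟩
    · exact Or.inl ⟨h, by rw [w'out _ hx, w'out _ hy]; exact hw⟩
    · refine Or.inr ⟨e, ?_, h⟩
      rcases h with ⟨rfl, rfl⟩ | ⟨rfl, rfl⟩ <;> rw [w'out _ hx, w'out _ hy] <;> exact he
  have qein : ∀ x y, QE src dst c w x y ∧ x ∈ K ∧ y ∈ K → QE src dst c w' x y := by
    rintro x y ⟨⟨h, hw⟩ | ⟨e, he, h⟩, hx, hy⟩
    · exact Or.inl ⟨h, by rw [w'in _ hx, w'in _ hy, hw]⟩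
    · refine Or.inr ⟨e, ?_, h⟩
      rcases h with ⟨rfl, rfl⟩ | ⟨rfl, rfl⟩ <;> rw [w'in _ hx, w'in _ hy] <;> linarith
  have hcross : ∃ x y, QE src dst c w' x y ∧ x ∉ K ∧ y ∈ K := by
    rcases hlT with ⟨e, h1, h2, hl⟩ | ⟨x, y, hxy, hx, hy, hlt, hl⟩
    · refine ⟨dst e, src e, Or.inr ⟨e, ?_, Or.inr ⟨rfl, rfl⟩⟩, h2, h1⟩
      rw [w'in _ h1, w'out _ h2]; linarith
    · refine ⟨x, y, Or.inl ⟨hxy, ?_⟩, hx, hy⟩
      rw [w'in _ hy, w'out _ hx]; linarith
  have hconn' : ∀ a, ReflTransGen (QE src dst c w') s a := by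
    intro a
    by_cases ha : a ∈ K
    · obtain ⟨x, y, hxy, hx, hy⟩ := hcross
      have h1 : ReflTransGen (QE src dst c w') s x := rtg_mono qeout (f7 x hx)
      have h2 : ReflTransGen (QE src dst c w') b0 y := rtg_mono qein (f6 y hy)
      have h3 : ReflTransGen (QE src dst c w') b0 a := rtg_mono qein (f6 a ha)
      have h4 : ReflTransGen (QE src dst c w') y b0 :=
        rtg_symm (fun _ _ h => QE.symm h) h2
      exact ((h1.tail hxy).trans h4).trans h3
    · exact rtg_mono qeout (f7 a ha)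
  have hstep : Step src dst c s w' w := by
    refine ⟨K, hsK, ⟨b0, hb0K⟩, ?_, ?_, l, hl0, fun v hv => (w'out v hv).symm,
      Or.inl ⟨fun v hv => by rw [w'in v hv]; ring, e0, he0c, he0s, he0d, he0t⟩⟩
    · exact connOn_of_center fun a ha => rtg_mono (fun x y h => ⟨h.1.adj, h.2⟩) (f6 a ha)
    · exact connOn_of_center fun a ha => rtg_mono (fun x y h => ⟨h.1.adj, h.2⟩) (f7 a ha)
  have hRmono : ∀ a, R a → Reach src dst c s w' a := by
    intro a ha
    induction ha with
    | base => exact Reach.base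
    | @eq a b h1 h2 h3 ih =>
      refine Reach.eq ih h2 ?_
      rw [w'out _ fun h => hKR _ h h1, w'out _ fun h => hKR _ h (Reach.eq h1 h2 h3)]
      exact h3
    | down e h1 h2 ih =>
      refine Reach.down e ih ?_
      rw [w'out _ fun h => hKR _ h h1, w'out _ fun h => hKR _ h (Reach.down e h1 h2)]
      exact h2
  refine ⟨w', hf', by rw [w'out s hsK, hs], hconn', hstep, ?_⟩
  refine Finset.card_lt_card ?_
  rw [Finset.ssubset_iff_of_subset]
  · refine ⟨e0, ?_, ?_⟩
    · simp only [Finset.mem_filter, Finset.mem_univ, true_and]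
      exact ⟨he0c, fun h => by linarith [h.2]⟩
    · simp only [Finset.mem_filter, Finset.mem_univ, true_and]
      rintro ⟨_, h⟩
      refine h ⟨hRmono _ he0R, ?_⟩
      rw [w'in _ he0d, w'out _ he0s]; linarith
  · intro e
    simp only [Finset.mem_filter, Finset.mem_univ, true_and]
    rintro ⟨h1, h2⟩
    refine ⟨h1, fun h3 => h2 ⟨hRmono _ h3.1, ?_⟩⟩
    rw [w'out _ fun h => hKR _ h h3.1]
    by_cases hd : dst e ∈ K
    · rw [w'in _ hd]; linarith [h3.2]
    · rw [w'out _ hd]; exact h3.2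

/-- The backward step when all nodes are frozen. -/
theorem pred_two (hc : ∀ e, 0 ≤ c e) {w : V → ℝ} (hf : Feas src dst c w) (hs : w s = 0)
    (hR : ∀ a, Reach src dst c s w a) (hw : w ≠ fun _ => 0) :
    ∃ w' : V → ℝ, Feas src dst c w' ∧ w' s = 0 ∧ (∀ a, ReflTransGen (QE src dst c w') s a) ∧
      Step src dst c s w' w ∧ Phi src dst c s w' < Phi src dst c s w := by
  classical
  have hle : ∀ a, w a ≤ 0 := by
    intro a
    induction hR a with
    | base => exact hs.le
    | eq _ _ h ih => rw [← h]; exact ih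
    | down e _ h ih => have := hc e; linarith
  have : Nonempty V := ⟨s⟩
  obtain ⟨d0, hd0⟩ := Finite.exists_min w
  have hneg : w d0 < 0 := by
    by_contra hcon
    exact hw (funext fun a => le_antisymm (hle a) ((not_lt.mp hcon).trans (hd0 a)))
  set D : Set V := {v | ReflTransGen (fun x y => Adj src dst x y ∧ w y = w d0) d0 v} with hD
  have hDm : ∀ v ∈ D, w v = w d0 := by
    intro v hv
    have hv' : ReflTransGen (fun x y => Adj src dst x y ∧ w y = w d0) d0 v := hv
    induction hv' with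
    | refl => rfl
    | tail _ h _ => exact h.2
  have hDcl : ∀ x y, x ∈ D → Adj src dst x y → w y = w d0 → y ∈ D :=
    fun x y hx hxy hy => ReflTransGen.tail hx ⟨hxy, hy⟩
  have hd0D : d0 ∈ D := ReflTransGen.refl
  have hsD : s ∉ D := fun h => by have := hDm s h; linarith
  have hgt : ∀ x y, x ∈ D → Adj src dst x y → y ∉ D → w d0 < w y := by
    intro x y hx hxy hy
    exact lt_of_le_of_ne (hd0 y) fun h => hy (hDcl x y hx hxy h.symm)
  have hentry : ∀ v, Reach src dst c s w v → v ∈ D →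
      ∃ e, src e ∈ D ∧ dst e ∉ D ∧ w (dst e) - w (src e) = c e := by
    intro v hv
    induction hv with
    | base => exact fun h => absurd h hsD
    | @eq a b h1 h2 h3 ih =>
      intro hb
      exact ih (hDcl b a hb h2.symm (by rw [h3]; exact hDm b hb))
    | down e h1 h2 ih =>
      intro hb
      by_cases hd : dst e ∈ D
      · exact ih hd
      · exact ⟨e, hb, hd, h2⟩
  obtain ⟨e0, he0s, he0d, he0t⟩ := hentry d0 (hR d0) hd0D
  have he0c : 0 < c e0 := by
    have h1 := hgt (src e0) (dst e0) he0s ⟨e0, Or.inl ⟨rfl, rfl⟩⟩ he0d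
    have h2 := hDm _ he0s
    linarith
  set T : Set ℝ := {t | ∃ x y, Adj src dst x y ∧ x ∈ D ∧ y ∉ D ∧ t = w y - w d0} with hT
  have hTfin : T.Finite := by
    refine Set.Finite.subset (Set.finite_range fun y : V => w y - w d0) ?_
    rintro t ⟨x, y, _, _, _, rfl⟩
    exact ⟨y, rfl⟩
  have hTne : T.Nonempty :=
    ⟨_, src e0, dst e0, ⟨e0, Or.inl ⟨rfl, rfl⟩⟩, he0s, he0d, rfl⟩
  have hTpos : ∀ t ∈ T, 0 < t := by
    rintro t ⟨x, y, h1, h2, h3, rfl⟩
    have := hgt x y h2 h1 h3
    linarith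
  obtain ⟨l, hlT, hl0, hlmin⟩ := exists_min_pos hTfin hTne hTpos
  set w' : V → ℝ := fun v => if v ∈ D then w v + l else w v with hw'
  have w'in : ∀ v ∈ D, w' v = w v + l := fun v hv => by simp [hw', hv]
  have w'out : ∀ v, v ∉ D → w' v = w v := fun v hv => by simp [hw', hv]
  have hcr : ∀ e, src e ∉ D → dst e ∈ D → w' (dst e) - w' (src e) ≤ 0 := by
    intro e h1 h2
    rw [w'out _ h1, w'in _ h2]
    have := hlmin _ ⟨dst e, src e, ⟨e, Or.inr ⟨rfl, rfl⟩⟩, h2, h1, rfl⟩
    have := hDm _ h2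
    linarith
  have hf' : Feas src dst c w' := by
    intro e
    by_cases h1 : src e ∈ D <;> by_cases h2 : dst e ∈ D
    · rw [w'in _ h1, w'in _ h2]; have := hf e; linarith
    · rw [w'in _ h1, w'out _ h2]; have := hf e; linarith
    · exact (hcr e h1 h2).trans (hc e)
    · rw [w'out _ h1, w'out _ h2]; exact hf e
  have hout : ∀ v, Reach src dst c s w v → v ∉ D → Reach src dst c s w' v ∧
      ReflTransGen (fun x y => Adj src dst x y ∧ x ∈ Dᶜ ∧ y ∈ Dᶜ) s v := by
    intro v hv
    induction hv with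
    | base => exact fun _ => ⟨Reach.base, ReflTransGen.refl⟩
    | @eq a b h1 h2 h3 ih =>
      intro hb
      have ha : a ∉ D := fun ha => hb (hDcl a b ha h2 (by rw [← h3]; exact hDm a ha))
      obtain ⟨i1, i2⟩ := ih ha
      refine ⟨Reach.eq i1 h2 ?_, i2.tail ⟨h2, ha, hb⟩⟩
      rw [w'out _ ha, w'out _ hb]; exact h3
    | down e h1 h2 ih =>
      intro hb
      have ha : dst e ∉ D := by
        intro ha
        have h3 := hDm _ ha
        have h4 := hd0 (src e)
        have h5 := hc e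
        exact hb (hDcl _ _ ha ⟨e, Or.inr ⟨rfl, rfl⟩⟩ (by linarith))
      obtain ⟨i1, i2⟩ := ih ha
      refine ⟨Reach.down e i1 ?_, i2.tail ⟨⟨e, Or.inr ⟨rfl, rfl⟩⟩, ha, hb⟩⟩
      rw [w'out _ ha, w'out _ hb]; exact h2
  have hRin : ∀ v ∈ D, (Reach src dst c s w' v ↔ Reach src dst c s w' d0) := by
    intro v hv
    have hv' : ReflTransGen (fun x y => Adj src dst x y ∧ w y = w d0) d0 v := hv
    induction hv' with
    | refl => exact Iff.rfl
    | @tail x y hx hxy ih =>
      have hxD : x ∈ D := hx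
      have hyD : y ∈ D := hv
      have heq : w' x = w' y := by rw [w'in _ hxD, w'in _ hyD, hDm _ hxD, hDm _ hyD]
      exact ⟨fun h => (ih hxD).1 (Reach.eq h hxy.1.symm heq.symm),
        fun h => Reach.eq ((ih hxD).2 h) hxy.1 heq⟩
  have hR' : ∀ v, Reach src dst c s w' v := by
    obtain ⟨x, y, hxy, hx, hy, hl⟩ := hlT
    have h1 : Reach src dst c s w' x := by
      refine Reach.eq (hout y (hR y) hy).1 hxy.symm ?_
      rw [w'out _ hy, w'in _ hx, hDm _ hx]; linarith
    have h2 : Reach src dst c s w' d0 := (hRin x hx).1 h1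
    intro v
    by_cases hv : v ∈ D
    · exact (hRin v hv).2 h2
    · exact (hout v (hR v) hv).1
  have hconn' : ∀ a, ReflTransGen (QE src dst c w') s a := by
    intro a
    induction hR' a with
    | base => exact ReflTransGen.refl
    | eq _ h2 h3 ih => exact ih.tail (Or.inl ⟨h2, h3⟩)
    | down e _ h2 ih => exact ih.tail (Or.inr ⟨e, h2, Or.inr ⟨rfl, rfl⟩⟩)
  have hDconn : ∀ a ∈ D, ReflTransGen (fun x y => Adj src dst x y ∧ x ∈ D ∧ y ∈ D) d0 a := by
    intro a ha
    have ha' : ReflTransGen (fun x y => Adj src dst x y ∧ w y = w d0) d0 a := ha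
    induction ha' with
    | refl => exact ReflTransGen.refl
    | @tail x y hx hxy ih => exact (ih hx).tail ⟨hxy.1, hx, ha⟩
  have hstep : Step src dst c s w' w := by
    refine ⟨D, hsD, ⟨d0, hd0D⟩, connOn_of_center hDconn,
      connOn_of_center fun a ha => (hout a (hR a) ha).2, l, hl0, fun v hv => (w'out v hv).symm,
      Or.inr ⟨fun v hv => by rw [w'in v hv]; ring, e0, he0c, he0s, he0d, he0t⟩⟩
  refine ⟨w', hf', by rw [w'out s hsD, hs], hconn', hstep, ?_⟩
  refine Finset.card_lt_card ?_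
  rw [Finset.ssubset_iff_of_subset]
  · refine ⟨e0, ?_, ?_⟩
    · simp only [Finset.mem_filter, Finset.mem_univ, true_and]
      exact ⟨he0c, fun h => by linarith [h.2]⟩
    · simp only [Finset.mem_filter, Finset.mem_univ, true_and]
      rintro ⟨_, h⟩
      refine h ⟨hR' _, ?_⟩
      rw [w'in _ he0s, w'out _ he0d]; linarith
  · intro e
    simp only [Finset.mem_filter, Finset.mem_univ, true_and]
    rintro ⟨h1, h2⟩
    refine ⟨h1, fun h3 => h2 ⟨hR' _, ?_⟩⟩
    have h4 := h3.2
    by_cases hse : src e ∈ D <;> by_cases hde : dst e ∈ D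
    · rw [w'in _ hse, w'in _ hde]; linarith
    · rw [w'in _ hse, w'out _ hde]; linarith
    · exact (hcr e hse hde).trans_lt h1
    · rw [w'out _ hse, w'out _ hde]; exact h4

/-- The main walk. -/
theorem exists_walk (hc : ∀ e, 0 ≤ c e) : ∀ (n : ℕ) (w : V → ℝ), Feas src dst c w → w s = 0 →
    (∀ a, ReflTransGen (QE src dst c w) s a) → Phi src dst c s w ≤ n →
    ∃ k ≤ Phi src dst c s w, Walk src dst c s k w := by
  intro n
  induction n with
  | zero =>
    intro w hf hs hconn hn
    by_cases hR : ∀ a, Reach src dst c s w a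
    · by_cases hw : w = fun _ => 0
      · exact ⟨0, Nat.zero_le _, hw ▸ Walk.zero⟩
      · obtain ⟨w', _, _, _, _, h⟩ := pred_two hc hf hs hR hw
        omega
    · push Not at hR
      obtain ⟨b0, hb0⟩ := hR
      obtain ⟨w', _, _, _, _, h⟩ := pred_one hc hf hs hconn hb0
      omega
  | succ n ih =>
    intro w hf hs hconn hn
    have key : (∃ w' : V → ℝ, Feas src dst c w' ∧ w' s = 0 ∧
        (∀ a, ReflTransGen (QE src dst c w') s a) ∧
        Step src dst c s w' w ∧ Phi src dst c s w' < Phi src dst c s w) ∨ w = fun _ => 0 := by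
      by_cases hR : ∀ a, Reach src dst c s w a
      · by_cases hw : w = fun _ => 0
        · exact Or.inr hw
        · exact Or.inl (pred_two hc hf hs hR hw)
      · push Not at hR
        obtain ⟨b0, hb0⟩ := hR
        exact Or.inl (pred_one hc hf hs hconn hb0)
    rcases key with ⟨w', h1, h2, h3, h4, h5⟩ | hw
    · obtain ⟨k, hk, hwalk⟩ := ih w' h1 h2 h3 (by omega)
      exact ⟨k + 1, by omega, Walk.succ hwalk h1 hf h2 hs h4⟩
    · exact ⟨0, Nat.zero_le _, hw ▸ Walk.zero⟩

omit [Finite V] in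
open Classical in
theorem Phi_le (w : V → ℝ) :
    Phi src dst c s w ≤ (Finset.univ.filter fun e : E => 0 < c e).card := by
  refine Finset.card_le_card fun e => ?_
  simp only [Finset.mem_filter, Finset.mem_univ, true_and]
  exact fun h => h.1

end

end Pool.Agent.Helper37.CircuitNet
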